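import Mathlib

set_option autoImplicit false

/-!
# Instability of `W (I - t B)` and of its resolvent companion inside `(0, 2 / ϱ(B))`

An explicit primitive stochastic matrix `W` and an explicit positive definite matrix `B` of order two
which satisfy all the hypotheses of the question, while both iteration matrices have an eigenvalue
larger than one for `t = 19/10`, which is smaller than `2 / ϱ(B) = 2`.
-/

namespace Pool.Agent.Results.MP_d721eb_al.Unstable

open Matrix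

/-- `ϱ(M)`: the largest modulus of a complex eigenvalue of the real matrix `M`. -/
noncomputable def rho {n : ℕ} (M : Matrix (Fin n) (Fin n) ℝ) : ℝ :=
  sSup {x : ℝ | ∃ μ ∈ spectrum ℂ (M.map Complex.ofRealHom), x = ‖μ‖}

/-- `W` is stochastic: `W ≥ 0` and `W e = e`. -/
def IsStochastic {n : ℕ} (W : Matrix (Fin n) (Fin n) ℝ) : Prop :=
  (∀ i j, 0 ≤ W i j) ∧ ∀ i, ∑ j, W i j = 1

/-- `W` is primitive: for one `m ≥ 1` all entries of `W ^ m` are positive. -/
def IsPrimitive {n : ℕ} (W : Matrix (Fin n) (Fin n) ℝ) : Prop :=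
  ∃ m : ℕ, 1 ≤ m ∧ ∀ i j, 0 < (W ^ m) i j

/-- `π` is the left Perron eigenvector of `W`: `π > 0`, `πᵀ W = πᵀ` and `πᵀ e = 1`. -/
def IsLeftPerron {n : ℕ} (W : Matrix (Fin n) (Fin n) ℝ) (π : Fin n → ℝ) : Prop :=
  (∀ i, 0 < π i) ∧ π ᵥ* W = π ∧ ∑ i, π i = 1

/-- `P(t) = W (I - t B)`. -/
noncomputable def P {n : ℕ} (W B : Matrix (Fin n) (Fin n) ℝ) (t : ℝ) : Matrix (Fin n) (Fin n) ℝ :=
  W * (1 - t • B)

/-- `R(t) = I - W + (I + t B)⁻¹ (2 W - I)`. -/
noncomputable def R {n : ℕ} (W B : Matrix (Fin n) (Fin n) ℝ) (t : ℝ) : Matrix (Fin n) (Fin n) ℝ :=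
  1 - W + (1 + t • B)⁻¹ * ((2 : ℝ) • W - 1)

theorem bddAbove_set {n : ℕ} (M : Matrix (Fin n) (Fin n) ℝ) :
    BddAbove {x : ℝ | ∃ μ ∈ spectrum ℂ (M.map Complex.ofRealHom), x = ‖μ‖} := by
  have hfin : (spectrum ℂ (M.map Complex.ofRealHom)).Finite := Matrix.finite_spectrum _
  have : {x : ℝ | ∃ μ ∈ spectrum ℂ (M.map Complex.ofRealHom), x = ‖μ‖} =
      (fun μ : ℂ => ‖μ‖) '' spectrum ℂ (M.map Complex.ofRealHom) := by
    ext x; constructor
    · rintro ⟨μ, h, rfl⟩; exact ⟨μ, h, rfl⟩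
    · rintro ⟨μ, h, rfl⟩; exact ⟨μ, h, rfl⟩
  rw [this]
  exact (hfin.image _).bddAbove

theorem mem_spec_iff (M : Matrix (Fin 2) (Fin 2) ℝ) (μ : ℂ) :
    μ ∈ spectrum ℂ (M.map Complex.ofRealHom) ↔
      μ ^ 2 - ((M 0 0 + M 1 1 : ℝ) : ℂ) * μ + ((M 0 0 * M 1 1 - M 0 1 * M 1 0 : ℝ) : ℂ) = 0 := by
  rw [Matrix.mem_spectrum_iff_isRoot_charpoly, Matrix.charpoly_fin_two]
  simp [Polynomial.IsRoot, Matrix.trace_fin_two, Matrix.det_fin_two]

/-- If the characteristic polynomial is negative at `1` then there is an eigenvalue larger than `1`. -/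
theorem one_lt_rho (M : Matrix (Fin 2) (Fin 2) ℝ)
    (h : 1 - (M 0 0 + M 1 1) + (M 0 0 * M 1 1 - M 0 1 * M 1 0) < 0) : 1 < rho M := by
  set s := M 0 0 + M 1 1 with hs
  set d := M 0 0 * M 1 1 - M 0 1 * M 1 0 with hd
  have hD : (s - 2) ^ 2 < s ^ 2 - 4 * d := by nlinarith
  have hD0 : 0 ≤ s ^ 2 - 4 * d := le_trans (sq_nonneg _) hD.le
  set r := Real.sqrt (s ^ 2 - 4 * d) with hr
  have hr2 : r ^ 2 = s ^ 2 - 4 * d := Real.sq_sqrt hD0
  have hr0 : 0 ≤ r := Real.sqrt_nonneg _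
  have h1 : |s - 2| < r := abs_lt_of_sq_lt_sq (by rw [hr2]; exact hD) hr0
  have h2 : 1 < (s + r) / 2 := by
    have := (abs_lt.mp h1).1
    linarith
  have hmem : (((s + r) / 2 : ℝ) : ℂ) ∈ spectrum ℂ (M.map Complex.ofRealHom) := by
    rw [mem_spec_iff]
    have : ((s + r) / 2) ^ 2 - s * ((s + r) / 2) + d = 0 := by nlinarith
    exact_mod_cast this
  have h3 : (s + r) / 2 ≤ rho M := by
    apply le_csSup (bddAbove_set M)
    refine ⟨_, hmem, ?_⟩
    rw [Complex.norm_real, Real.norm_of_nonneg (by linarith)]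
  linarith

/-- The stochastic matrix of the counterexample. -/
noncomputable def W₀ : Matrix (Fin 2) (Fin 2) ℝ := !![3 / 5, 2 / 5; 1, 0]

/-- The positive definite matrix of the counterexample. -/
noncomputable def B₀ : Matrix (Fin 2) (Fin 2) ℝ := !![49 / 125, -57 / 125; -57 / 125, 329 / 500]

theorem rho_B₀ : rho B₀ = 1 := by
  have hset : {x : ℝ | ∃ μ ∈ spectrum ℂ (B₀.map Complex.ofRealHom), x = ‖μ‖} = {1, 1 / 20} := by
    ext x
    simp only [mem_spec_iff, Set.mem_ofPred_eq, Set.mem_insert_iff, Set.mem_singleton_iff]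
    have key : ∀ μ : ℂ, μ ^ 2 - ((B₀ 0 0 + B₀ 1 1 : ℝ) : ℂ) * μ +
        ((B₀ 0 0 * B₀ 1 1 - B₀ 0 1 * B₀ 1 0 : ℝ) : ℂ) = (μ - 1) * (μ - 1 / 20) := by
      intro μ
      simp only [B₀, of_apply, cons_val', cons_val_zero, cons_val_one, cons_val_fin_one]
      push_cast
      ring
    constructor
    · rintro ⟨μ, hμ, rfl⟩
      rw [key, mul_eq_zero, sub_eq_zero, sub_eq_zero] at hμ
      rcases hμ with rfl | rfl
      · left; simp
      · right; simp
    · rintro (rfl | rfl)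
      · exact ⟨1, by rw [key]; ring, by simp⟩
      · exact ⟨1 / 20, by rw [key]; ring, by simp⟩
  unfold rho
  rw [hset]
  have : IsGreatest ({1, 1 / 20} : Set ℝ) 1 := by
    constructor
    · simp
    · rintro x (rfl | rfl) <;> norm_num
  exact this.csSup_eq

/-- There are a primitive stochastic matrix `W` with left Perron eigenvector `π`, a positive definite
(in particular positive semidefinite) matrix `B` with `B e ≤ ϱ(B) e` and `πᵀ B e > 0`, both of order
two, and `t ∈ (0, 2 / ϱ(B))` such that neither `P(t)` nor `R(t)` is stable; in fact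
`ϱ(P(t)) > 1` and `ϱ(R(t)) > 1`. -/
theorem result :
    ∃ (W B : Matrix (Fin 2) (Fin 2) ℝ) (π : Fin 2 → ℝ) (t : ℝ),
      IsStochastic W ∧ IsPrimitive W ∧ IsLeftPerron W π ∧
      B.PosSemidef ∧ B.PosDef ∧
      (∀ i, (B *ᵥ fun _ => (1 : ℝ)) i ≤ rho B) ∧ 0 < π ⬝ᵥ (B *ᵥ fun _ => (1 : ℝ)) ∧
      0 < rho B ∧ 0 < t ∧ t < 2 / rho B ∧
      1 < rho (P W B t) ∧ 1 < rho (R W B t) := by
  have hPD : B₀.PosDef := by
    refine Matrix.PosDef.of_dotProduct_mulVec_pos ?_ ?_
    · ext i j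
      fin_cases i <;> fin_cases j <;> simp [B₀]
    · intro x hx
      have hx' : x 0 ≠ 0 ∨ x 1 ≠ 0 := by
        by_contra hcon
        push Not at hcon
        apply hx
        ext i
        fin_cases i
        · exact hcon.1
        · exact hcon.2
      simp only [B₀, star_trivial, dotProduct, mulVec, Fin.sum_univ_two, of_apply, cons_val',
        cons_val_zero, cons_val_one, cons_val_fin_one]
      have h2 : 0 < x 0 ^ 2 + x 1 ^ 2 := by
        rcases hx' with h | h <;> positivity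
      nlinarith [sq_nonneg (3 * x 0 - 4 * x 1), sq_nonneg (4 * x 0 + 3 * x 1)]
  refine ⟨W₀, B₀, ![5 / 7, 2 / 7], 19 / 10, ?_, ?_, ?_, hPD.posSemidef, hPD, ?_, ?_, ?_, ?_, ?_, ?_, ?_⟩
  · constructor
    · intro i j
      fin_cases i <;> fin_cases j <;> norm_num [W₀]
    · intro i
      fin_cases i <;> norm_num [W₀, Fin.sum_univ_two]
  · refine ⟨2, by norm_num, ?_⟩
    intro i j
    fin_cases i <;> fin_cases j <;> norm_num [W₀, pow_two, Matrix.mul_apply, Fin.sum_univ_two]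
  · refine ⟨?_, ?_, ?_⟩
    · intro i
      fin_cases i <;> norm_num
    · ext i
      fin_cases i <;> norm_num [W₀, vecMul, dotProduct, Fin.sum_univ_two]
    · norm_num [Fin.sum_univ_two]
  · intro i
    rw [rho_B₀]
    fin_cases i <;> norm_num [B₀, mulVec, dotProduct, Fin.sum_univ_two]
  · norm_num [B₀, mulVec, dotProduct, Fin.sum_univ_two]
  · rw [rho_B₀]; norm_num
  · norm_num
  · rw [rho_B₀]; norm_num
  · apply one_lt_rho
    norm_num [P, W₀, B₀, Matrix.mul_apply, Fin.sum_univ_two]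
  · apply one_lt_rho
    have hinv : (1 + (19 / 10 : ℝ) • B₀)⁻¹ =
        !![(22502 : ℝ) / 31755, 8664 / 31755; 8664 / 31755, 17448 / 31755] := by
      apply Matrix.inv_eq_right_inv
      ext i j
      fin_cases i <;> fin_cases j <;>
        norm_num [B₀, Matrix.mul_apply, Fin.sum_univ_two]
    have h2 : ((2 : ℝ) • W₀ - 1) = !![(1 : ℝ) / 5, 4 / 5; 2, -1] := by
      ext i j
      fin_cases i <;> fin_cases j <;> norm_num [W₀]
    unfold R
    rw [hinv, h2]
    norm_num [W₀, Matrix.mul_apply, Fin.sum_univ_two]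

end Pool.Agent.Results.MP_d721eb_al.Unstable
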